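import Pool.Agent.X238.Erp.Struct

/-!
# The (1,1) random edge-removal process: counting orders
-/

namespace Pool.Agent.X238.Erp

open Finset

section general

variable {E : Type} [Fintype E] [DecidableEq E]

/-- The orders of `E` as bijections. -/
abbrev Ord (E : Type) [Fintype E] : Type := Fin (Fintype.card E) ≃ E

/-- In the order `σ` the element `e` is the last one of `S`. -/
def IsLast (σ : Ord E) (S : Finset E) (e : E) : Prop := ∀ x ∈ S, σ.symm x ≤ σ.symm e

open Classical in
lemma count_last {ι : Type} (s : Finset ι) (S : ι → Finset E) (e : ι → E)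
    (he : ∀ i, e i ∈ S i) (hd : ∀ i j, i ≠ j → Disjoint (S i) (S j)) :
    (univ.filter fun σ : Ord E => ∀ i ∈ s, IsLast σ (S i) (e i)).card * ∏ i ∈ s, (S i).card ≤
      Fintype.card (Ord E) := by
  induction s using Finset.induction_on with
  | empty => simp
  | insert j s hj ih =>
    rw [prod_insert hj]
    refine le_trans ?_ ih
    rw [← mul_assoc]
    apply Nat.mul_le_mul_right
    rw [← card_product]
    refine card_le_card_of_injOn (fun q => q.1.trans (Equiv.swap (e j) q.2)) ?_ ?_
    · rintro ⟨σ, f⟩ hq
      simp only [coe_product, Set.mem_prod, mem_coe, mem_filter, mem_univ, true_and,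
        mem_insert, forall_eq_or_imp] at hq ⊢
      obtain ⟨⟨h1, h2⟩, h3⟩ := hq
      intro i hi x hx
      have hij : i ≠ j := by
        rintro rfl
        exact hj hi
      have hne : ∀ y ∈ S i, ∀ z ∈ S j, y ≠ z := by
        intro y hy z hz hyz
        subst hyz
        exact disjoint_left.1 (hd i j hij) hy hz
      have hfix : ∀ y ∈ S i, Equiv.swap (e j) f y = y := fun y hy =>
        Equiv.swap_apply_of_ne_of_ne (hne y hy _ (he j)) (hne y hy _ h3)
      simp only [Equiv.symm_trans_apply, Equiv.symm_swap]
      rw [hfix x hx, hfix (e i) (he i)]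
      exact h2 i hi x hx
    · rintro ⟨σ, f⟩ hq ⟨σ', f'⟩ hq' heq
      simp only [coe_product, Set.mem_prod, mem_coe, mem_filter, mem_univ, true_and,
        mem_insert, forall_eq_or_imp] at hq hq' heq
      have hlast : ∀ (τ : Ord E) (g : E), g ∈ S j → IsLast τ (S j) (e j) →
          ∀ x ∈ S j, (τ.trans (Equiv.swap (e j) g)).symm x ≤
            (τ.trans (Equiv.swap (e j) g)).symm g := by
        intro τ g hg hτ x hx
        simp only [Equiv.symm_trans_apply, Equiv.symm_swap, Equiv.swap_apply_right]
        apply hτ
        by_cases hxe : x = e j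
        · subst hxe
          rw [Equiv.swap_apply_left]
          exact hg
        · by_cases hxg : x = g
          · subst hxg
            rw [Equiv.swap_apply_right]
            exact he j
          · rw [Equiv.swap_apply_of_ne_of_ne hxe hxg]
            exact hx
      have hff : f = f' := by
        have h1 := hlast σ f hq.2 hq.1.1 f' hq'.2
        have h2 := hlast σ' f' hq'.2 hq'.1.1 f hq.2
        rw [← heq] at h2
        exact (Equiv.injective _ (le_antisymm h1 h2)).symm
      subst hff
      have : σ = σ' := by
        have h3 : ∀ x, σ x = σ' x := by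
          intro x
          have := congrArg (fun τ : Ord E => τ x) heq
          simpa using this
        exact Equiv.ext h3
      rw [this]

open Classical in
/-- Upper bound for the number of the orders such that for all `i` the element `e i` is the last
one in `I i` or the last one in `O i`. -/
lemma count_path {ι : Type} (s : Finset ι) (I O : ι → Finset E) (e : ι → E) (w : ι → ℕ)
    (hw : ∀ i, 0 < w i) (hI : ∀ i, w i ≤ (I i).card) (hO : ∀ i, w i ≤ (O i).card)
    (heI : ∀ i, e i ∈ I i) (heO : ∀ i, e i ∈ O i)
    (hII : ∀ i j, i ≠ j → Disjoint (I i) (I j)) (hOO : ∀ i j, i ≠ j → Disjoint (O i) (O j))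
    (hIO : ∀ i j, i ≠ j → Disjoint (I i) (O j)) :
    ((univ.filter fun σ : Ord E => ∀ i ∈ s, IsLast σ (I i) (e i) ∨ IsLast σ (O i) (e i)).card : ℝ) ≤
      (Fintype.card (Ord E) : ℝ) * ∏ i ∈ s, (2 / (w i : ℝ)) := by
  have h1 : (univ.filter fun σ : Ord E =>
      ∀ i ∈ s, IsLast σ (I i) (e i) ∨ IsLast σ (O i) (e i)) ⊆
      s.powerset.biUnion fun T => univ.filter fun σ : Ord E =>
        ∀ i ∈ s, IsLast σ (if i ∈ T then I i else O i) (e i) := by
    intro σ hσ
    simp only [mem_filter, mem_univ, true_and] at hσ
    rw [mem_biUnion]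
    refine ⟨s.filter fun i => IsLast σ (I i) (e i), mem_powerset.2 (filter_subset _ _), ?_⟩
    simp only [mem_filter, mem_univ, true_and]
    intro i hi
    by_cases h : IsLast σ (I i) (e i)
    · rw [if_pos ⟨hi, h⟩]
      exact h
    · rw [if_neg (fun h' => h h'.2)]
      exact (hσ i hi).resolve_left h
  have h2 : ∀ T ∈ s.powerset, ((univ.filter fun σ : Ord E =>
        ∀ i ∈ s, IsLast σ (if i ∈ T then I i else O i) (e i)).card : ℝ) ≤
        (Fintype.card (Ord E) : ℝ) * ∏ i ∈ s, (1 / (w i : ℝ)) := by
    intro T _
    have h3 := count_last s (fun i => if i ∈ T then I i else O i) e (by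
      intro i
      split_ifs
      · exact heI i
      · exact heO i) (by
      intro i j hij
      split_ifs
      · exact hII i j hij
      · exact hIO i j hij
      · exact (hIO j i hij.symm).symm
      · exact hOO i j hij)
    have h4 : ∏ i ∈ s, w i ≤ ∏ i ∈ s, (if i ∈ T then I i else O i).card := by
      apply prod_le_prod'
      intro i _
      split_ifs
      · exact hI i
      · exact hO i
    have h5 := (Nat.mul_le_mul_left _ h4).trans h3
    have h6 : ((univ.filter fun σ : Ord E =>
        ∀ i ∈ s, IsLast σ (if i ∈ T then I i else O i) (e i)).card : ℝ) * ∏ i ∈ s, (w i : ℝ) ≤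
        (Fintype.card (Ord E) : ℝ) := by
      exact_mod_cast h5
    have h7 : 0 < ∏ i ∈ s, (w i : ℝ) := prod_pos fun i _ => by exact_mod_cast hw i
    rw [prod_div_distrib, prod_const_one, mul_one_div, le_div_iff₀ h7]
    exact h6
  calc ((univ.filter fun σ : Ord E =>
      ∀ i ∈ s, IsLast σ (I i) (e i) ∨ IsLast σ (O i) (e i)).card : ℝ)
      ≤ ((s.powerset.biUnion fun T => univ.filter fun σ : Ord E =>
        ∀ i ∈ s, IsLast σ (if i ∈ T then I i else O i) (e i)).card : ℝ) := by
        exact_mod_cast card_le_card h1
    _ ≤ ∑ T ∈ s.powerset, ((univ.filter fun σ : Ord E =>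
        ∀ i ∈ s, IsLast σ (if i ∈ T then I i else O i) (e i)).card : ℝ) := by
        exact_mod_cast card_biUnion_le
    _ ≤ ∑ _T ∈ s.powerset, (Fintype.card (Ord E) : ℝ) * ∏ i ∈ s, (1 / (w i : ℝ)) :=
        sum_le_sum h2
    _ = (Fintype.card (Ord E) : ℝ) * ∏ i ∈ s, (2 / (w i : ℝ)) := by
        rw [sum_const, card_powerset, nsmul_eq_mul, prod_div_distrib, prod_div_distrib,
          prod_const_one, prod_const]
        push_cast
        ring

end general

variable {n : ℕ}

/-- The edges from the fixed source `a`. -/
lemma card_out (a : Fin n) (S : Finset (Edge n)) (w : ℕ) (f : ℕ → ℕ) (hf : ∀ k, k < w →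
    ∃ e ∈ S, e.1.1 = a ∧ e.1.2.val = f k) (hinj : ∀ k, k < w → ∀ l, l < w → f k = f l → k = l) :
    w ≤ S.card := by
  classical
  choose g hg using fun k : Fin w => hf k k.2
  have : (univ : Finset (Fin w)).card ≤ S.card := by
    refine card_le_card_of_injOn g (fun k _ => (hg k).1) ?_
    intro k _ l _ hkl
    apply Fin.ext
    apply hinj k k.2 l l.2
    rw [← (hg k).2.2, ← (hg l).2.2, hkl]
  simpa using this

/-- The edges to the fixed target `b`. -/
lemma card_in (b : Fin n) (S : Finset (Edge n)) (w : ℕ) (f : ℕ → ℕ) (hf : ∀ k, k < w →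
    ∃ e ∈ S, e.1.2 = b ∧ e.1.1.val = f k) (hinj : ∀ k, k < w → ∀ l, l < w → f k = f l → k = l) :
    w ≤ S.card := by
  classical
  choose g hg using fun k : Fin w => hf k k.2
  have : (univ : Finset (Fin w)).card ≤ S.card := by
    refine card_le_card_of_injOn g (fun k _ => (hg k).1) ?_
    intro k _ l _ hkl
    apply Fin.ext
    apply hinj k k.2 l l.2
    rw [← (hg k).2.2, ← (hg l).2.2, hkl]
  simpa using this

open Classical in
/-- A path in the left half is in the output with small probability. -/
lemma count_left {m v : ℕ} (hv : 2 * v ≤ n) (p : Fin (m + 1) → Fin n) (hp : StrictMono p)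
    (hpv : ∀ j, (p j).val ≤ v) :
    ((univ.filter fun σ : Order n => ∀ i : Fin m, ∃ e ∈ output σ,
      e.1 = (p i.castSucc, p i.succ)).card : ℝ) ≤
      (Fintype.card (Order n) : ℝ) * ∏ i : Fin m, (2 / ((p i.succ).val : ℝ)) := by
  have hlt : ∀ i : Fin m, p i.castSucc < p i.succ := fun i => hp (Fin.castSucc_lt_succ)
  let e : Fin m → Edge n := fun i => ⟨(p i.castSucc, p i.succ), hlt i⟩
  let I : Fin m → Finset (Edge n) := fun i => univ.filter fun x => x.1.2 = p i.succ
  let O : Fin m → Finset (Edge n) := fun i => univ.filter fun x =>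
    x.1.1 = p i.castSucc ∧ (x = e i ∨ v < x.1.2.val)
  have h := count_path (univ : Finset (Fin m)) I O e (fun i => (p i.succ).val)
    (fun i => lt_of_le_of_lt (Nat.zero_le _) (hlt i)) ?_ ?_ ?_ ?_ ?_ ?_ ?_
  · refine le_trans ?_ h
    norm_cast
    apply card_le_card
    intro σ hσ
    simp only [mem_filter, mem_univ, true_and] at hσ ⊢
    intro i _
    obtain ⟨x, hx, hx'⟩ := hσ i
    have hxe : x = e i := Subtype.ext hx'
    subst hxe
    rcases last_of_mem σ _ hx with h1 | h1
    · left
      intro y hy
      simp only [I, mem_filter, mem_univ, true_and] at hy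
      exact h1 y hy
    · right
      intro y hy
      simp only [O, mem_filter, mem_univ, true_and] at hy
      exact h1 y hy.1
  · intro i
    refine card_in (p i.succ) (I i) _ (fun k => k) (fun k hk => ?_) (fun k _ l _ h => h)
    exact ⟨⟨(⟨k, hk.trans (p i.succ).2⟩, p i.succ), hk⟩, by simp [I], rfl, rfl⟩
  · intro i
    refine card_out (p i.castSucc) (O i) _ (fun k => if k = 0 then (p i.succ).val else v + k)
      (fun k hk => ?_) (fun k hk l hl h => ?_)
    · by_cases hk0 : k = 0
      · exact ⟨e i, by simp [O, e], rfl, by simp [hk0, e]⟩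
      · have h1 : v + k < n := by
          have := hpv i.succ
          omega
        have h2 : (p i.castSucc).val < v + k := by
          have := hpv i.castSucc
          omega
        refine ⟨⟨(p i.castSucc, ⟨v + k, h1⟩), h2⟩, ?_, rfl, by simp [hk0]⟩
        simp only [O, mem_filter, mem_univ, true_and]
        right
        show v < v + k
        omega
    · have h3 := hpv i.succ
      split_ifs at h <;> omega
  · intro i
    simp [I, e]
  · intro i
    simp [O, e]
  · intro i j hij
    rw [disjoint_left]
    intro x hx hx'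
    simp only [I, mem_filter, mem_univ, true_and] at hx hx'
    exact hij (Fin.succ_injective _ (hp.injective (hx.symm.trans hx')))
  · intro i j hij
    rw [disjoint_left]
    intro x hx hx'
    simp only [O, mem_filter, mem_univ, true_and] at hx hx'
    exact hij (Fin.castSucc_injective _ (hp.injective (hx.1.symm.trans hx'.1)))
  · intro i j hij
    rw [disjoint_left]
    intro x hx hx'
    simp only [I, O, mem_filter, mem_univ, true_and] at hx hx'
    rcases hx'.2 with h1 | h1
    · rw [h1] at hx
      exact hij (Fin.succ_injective _ (hp.injective hx)).symm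
    · rw [hx] at h1
      exact absurd h1 (not_lt.2 (hpv i.succ))

open Classical in
/-- A path in the right half is in the output with small probability. -/
lemma count_right {m u : ℕ} (hu : n ≤ 2 * u + 2) (p : Fin (m + 1) → Fin n) (hp : StrictMono p)
    (hpu : ∀ j, u ≤ (p j).val) :
    ((univ.filter fun σ : Order n => ∀ i : Fin m, ∃ e ∈ output σ,
      e.1 = (p i.castSucc, p i.succ)).card : ℝ) ≤
      (Fintype.card (Order n) : ℝ) *
        ∏ i : Fin m, (2 / ((n - 1 - (p i.castSucc).val : ℕ) : ℝ)) := by
  have hlt : ∀ i : Fin m, p i.castSucc < p i.succ := fun i => hp (Fin.castSucc_lt_succ)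
  let e : Fin m → Edge n := fun i => ⟨(p i.castSucc, p i.succ), hlt i⟩
  let O : Fin m → Finset (Edge n) := fun i => univ.filter fun x => x.1.1 = p i.castSucc
  let I : Fin m → Finset (Edge n) := fun i => univ.filter fun x =>
    x.1.2 = p i.succ ∧ (x = e i ∨ x.1.1.val < u)
  have h := count_path (univ : Finset (Fin m)) I O e (fun i => n - 1 - (p i.castSucc).val)
    (fun i => by
      have h1 : (p i.castSucc).val < (p i.succ).val := hlt i
      have h2 := (p i.succ).2
      omega) ?_ ?_ ?_ ?_ ?_ ?_ ?_
  · refine le_trans ?_ h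
    norm_cast
    apply card_le_card
    intro σ hσ
    simp only [mem_filter, mem_univ, true_and] at hσ ⊢
    intro i _
    obtain ⟨x, hx, hx'⟩ := hσ i
    have hxe : x = e i := Subtype.ext hx'
    subst hxe
    rcases last_of_mem σ _ hx with h1 | h1
    · left
      intro y hy
      simp only [I, mem_filter, mem_univ, true_and] at hy
      exact h1 y hy.1
    · right
      intro y hy
      simp only [O, mem_filter, mem_univ, true_and] at hy
      exact h1 y hy
  · intro i
    refine card_in (p i.succ) (I i) _ (fun k => if k = 0 then (p i.castSucc).val else k - 1)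
      (fun k hk => ?_) (fun k hk l hl h => ?_)
    · by_cases hk0 : k = 0
      · exact ⟨e i, by simp [I, e], rfl, by simp [hk0, e]⟩
      · have h0 := hpu i.castSucc
        have h00 := hpu i.succ
        have h1 : k - 1 < n := by omega
        have h2 : k - 1 < (p i.succ).val := by omega
        refine ⟨⟨(⟨k - 1, h1⟩, p i.succ), h2⟩, ?_, rfl, by simp [hk0]⟩
        simp only [I, mem_filter, mem_univ, true_and]
        right
        show k - 1 < u
        omega
    · have h0 := hpu i.castSucc
      split_ifs at h <;> omega
  · intro i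
    refine card_out (p i.castSucc) (O i) _ (fun k => (p i.castSucc).val + 1 + k)
      (fun k hk => ?_) (fun k _ l _ h => by omega)
    have h1 : (p i.castSucc).val + 1 + k < n := by omega
    have h2 : (p i.castSucc).val < (p i.castSucc).val + 1 + k := by omega
    exact ⟨⟨(p i.castSucc, ⟨_, h1⟩), h2⟩, by simp [O], rfl, rfl⟩
  · intro i
    simp [I, e]
  · intro i
    simp [O, e]
  · intro i j hij
    rw [disjoint_left]
    intro x hx hx'
    simp only [I, mem_filter, mem_univ, true_and] at hx hx'
    exact hij (Fin.succ_injective _ (hp.injective (hx.1.symm.trans hx'.1)))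
  · intro i j hij
    rw [disjoint_left]
    intro x hx hx'
    simp only [O, mem_filter, mem_univ, true_and] at hx hx'
    exact hij (Fin.castSucc_injective _ (hp.injective (hx.symm.trans hx')))
  · intro i j hij
    rw [disjoint_left]
    intro x hx hx'
    simp only [I, O, mem_filter, mem_univ, true_and] at hx hx'
    rcases hx.2 with h1 | h1
    · rw [h1] at hx'
      exact hij (Fin.castSucc_injective _ (hp.injective hx'))
    · rw [hx'] at h1
      exact absurd h1 (not_lt.2 (hpu j.castSucc))

end Pool.Agent.X238.Erp
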