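import Mathlib

/-!
# The (1,1) random edge-removal process: definitions

The vertices are `0, …, n-1` (the problem writes `1, …, n`).
-/

namespace Pool.Agent.X238.Erp

open Finset

/-- The edges of the complete acyclic digraph on the vertices `0, …, n-1`: the pairs `(a, b)`
with `a < b`. -/
abbrev Edge (n : ℕ) : Type := {e : Fin n × Fin n // e.1 < e.2}

variable {n : ℕ}

/-- The vertices of in-degree zero. -/
def initial (G : Finset (Edge n)) : Finset (Fin n) :=
  univ.filter fun v => ∀ e ∈ G, e.1.2 ≠ v

/-- The vertices of out-degree zero. -/
def terminal (G : Finset (Edge n)) : Finset (Fin n) :=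
  univ.filter fun v => ∀ e ∈ G, e.1.1 ≠ v

/-- The edge `e` is examined: it is deleted, unless this would leave more than one initial vertex
or more than one terminal vertex. -/
def step (G : Finset (Edge n)) (e : Edge n) : Finset (Edge n) :=
  if (initial (G.erase e)).card ≤ 1 ∧ (terminal (G.erase e)).card ≤ 1 then G.erase e else G

/-- The orders in which the edges are examined: `σ t` is the edge examined in round `t`. -/
abbrev Order (n : ℕ) : Type := Fin (Fintype.card (Edge n)) ≃ Edge n

/-- The graph after the first `t` rounds; the process starts with the complete graph. -/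
def state (σ : Order n) : ℕ → Finset (Edge n)
  | 0 => univ
  | t + 1 => if h : t < Fintype.card (Edge n) then step (state σ t) (σ ⟨t, h⟩) else state σ t

/-- The output of the process. -/
def output (σ : Order n) : Finset (Edge n) := state σ (Fintype.card (Edge n))

/-- There is a directed path with `m` edges in `G`. -/
def HasPath (G : Finset (Edge n)) (m : ℕ) : Prop :=
  ∃ p : Fin (m + 1) → Fin n, ∀ i : Fin m, ∃ e ∈ G, e.1 = (p i.castSucc, p i.succ)

/-- The maximum directed path length of `G`. -/
noncomputable def maxPath (G : Finset (Edge n)) : ℕ := sSup {m | HasPath G m}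

/-- The expectation of the maximum directed path length of the output, for a uniformly random
order of the edges. -/
noncomputable def expectedLength (n : ℕ) : ℝ :=
  (∑ σ : Order n, (maxPath (output σ) : ℝ)) / (Fintype.card (Order n) : ℝ)

end Pool.Agent.X238.Erp
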