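import Pool.Agent.X238.Erp.Sum

/-!
# The (1,1) random edge-removal process: the expected maximum path length is of order `log n`
-/

namespace Pool.Agent.X238.Erp

open Finset Filter Topology

variable {n : ℕ}

lemma sum_Icc_inv (v : ℕ) : ∑ i ∈ Icc 1 v, (2 / (i : ℝ)) ≤ 2 * (1 + Real.log v) := by
  have h := harmonic_le_one_add_log v
  rw [harmonic_eq_sum_Icc] at h
  push_cast at h
  calc ∑ i ∈ Icc 1 v, (2 / (i : ℝ)) = 2 * ∑ i ∈ Icc 1 v, (i : ℝ)⁻¹ := by
        rw [mul_sum]
        rfl
    _ ≤ _ := by linarith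

lemma log_mono_nat {a b : ℕ} (h : a ≤ b) : Real.log a ≤ Real.log b := by
  rcases Nat.eq_zero_or_pos a with h0 | h0
  · subst h0
    simp only [Nat.cast_zero, Real.log_zero]
    exact Real.log_natCast_nonneg b
  · exact Real.log_le_log (by exact_mod_cast h0) (by exact_mod_cast h)

lemma sum_Ico_inv (v : ℕ) : ∑ i ∈ Ico 1 v, (2 / (i : ℝ)) ≤ 2 * (1 + Real.log v) := by
  refine le_trans ?_ (sum_Icc_inv v)
  apply sum_le_sum_of_subset_of_nonneg
  · exact Ico_subset_Icc_self
  · intro i _ _
    positivity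

lemma sum_range_inv (v : ℕ) : ∑ i ∈ range v, (2 / ((v - i : ℕ) : ℝ)) ≤ 2 * (1 + Real.log v) := by
  have h : ∑ i ∈ range v, (2 / ((v - i : ℕ) : ℝ)) = ∑ i ∈ Icc 1 v, (2 / (i : ℝ)) := by
    apply sum_nbij' (fun i => v - i) (fun i => v - i)
    · intro i hi
      rw [mem_range] at hi
      rw [mem_Icc]
      omega
    · intro i hi
      rw [mem_Icc] at hi
      rw [mem_range]
      omega
    · intro i hi
      rw [mem_range] at hi
      omega
    · intro i hi
      rw [mem_Icc] at hi
      omega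
    · intro i hi
      rfl
  rw [h]
  exact sum_Icc_inv v

lemma window {G : Finset (Edge n)} {M m : ℕ} {p : Fin (M + 1) → Fin n}
    (hp : ∀ i : Fin M, ∃ e ∈ G, e.1 = (p i.castSucc, p i.succ)) (s : ℕ) (hs : s + m ≤ M) :
    ∃ q : Fin (m + 1) → Fin n, (∀ j : Fin (m + 1), q j = p ⟨s + j.val, by omega⟩) ∧
      ∀ i : Fin m, ∃ e ∈ G, e.1 = (q i.castSucc, q i.succ) := by
  refine ⟨fun j => p ⟨s + j.val, by omega⟩, fun _ => rfl, fun i => ?_⟩
  obtain ⟨e, he, he'⟩ := hp ⟨s + i.val, by omega⟩
  exact ⟨e, he, he'⟩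

open Classical in
lemma card_long (m : ℕ) (hn : 3 ≤ n) :
    ((univ.filter fun σ : Order n => 2 * m ≤ maxPath (output σ)).card : ℝ) ≤
      (Fintype.card (Order n) : ℝ) * (2 * n * Real.exp (4 * (1 + Real.log n)) / 2 ^ m) := by
  have : NeZero n := ⟨by omega⟩
  set L := (univ.filter fun σ : Order n => ∃ p : Fin (m + 1) → Fin n, StrictMono p ∧
      (∀ j, (p j).val ≤ n / 2) ∧ ∀ i : Fin m, ∃ e ∈ output σ,
      e.1 = (p i.castSucc, p i.succ)) with hL
  set R := (univ.filter fun σ : Order n => ∃ p : Fin (m + 1) → Fin n, StrictMono p ∧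
      (∀ j, n / 2 ≤ (p j).val) ∧ ∀ i : Fin m, ∃ e ∈ output σ,
      e.1 = (p i.castSucc, p i.succ)) with hR
  have hsub : (univ.filter fun σ : Order n => 2 * m ≤ maxPath (output σ)) ⊆ L ∪ R := by
    intro σ hσ
    simp only [mem_filter, mem_univ, true_and] at hσ
    obtain ⟨p, hp⟩ := hasPath_maxPath (output σ)
    have hmono := strictMono_of_path hp
    rw [mem_union]
    by_cases h : (p ⟨m, by omega⟩).val ≤ n / 2
    · left
      obtain ⟨q, hq, hq'⟩ := window (m := m) hp 0 (by omega)
      rw [hL, mem_filter]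
      refine ⟨mem_univ _, q, strictMono_of_path hq', fun j => ?_, hq'⟩
      rw [hq]
      refine le_trans ?_ h
      apply hmono.monotone
      rw [Fin.le_def]
      have := j.2
      dsimp only
      omega
    · right
      obtain ⟨q, hq, hq'⟩ := window (m := m) hp m (by omega)
      rw [hR, mem_filter]
      refine ⟨mem_univ _, q, strictMono_of_path hq', fun j => ?_, hq'⟩
      rw [hq]
      refine le_trans (not_le.1 h).le ?_
      apply hmono.monotone
      rw [Fin.le_def]
      dsimp only
      omega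
  have h1 := prob_left (n := n) (m := m) (v := n / 2) (by omega)
  have h2 := prob_right (n := n) (m := m) (u := n / 2) (by omega)
  have e1 := esymm_bound (Icc 1 (n / 2)) (fun i => 2 / (i : ℝ)) (fun i _ => by positivity) 2
    (by norm_num) m
  have e2 := esymm_bound (range (n - 1)) (fun i => 2 / ((n - 1 - i : ℕ) : ℝ))
    (fun i _ => by positivity) 2 (by norm_num) m
  have l1 : Real.exp (2 * ∑ i ∈ Icc 1 (n / 2), (2 / (i : ℝ))) ≤
      Real.exp (4 * (1 + Real.log n)) := by
    apply Real.exp_le_exp.2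
    have := sum_Icc_inv (n / 2)
    have h3 := log_mono_nat (Nat.div_le_self n 2)
    linarith
  have l2 : Real.exp (2 * ∑ i ∈ range (n - 1), (2 / ((n - 1 - i : ℕ) : ℝ))) ≤
      Real.exp (4 * (1 + Real.log n)) := by
    apply Real.exp_le_exp.2
    have := sum_range_inv (n - 1)
    have h3 := log_mono_nat (Nat.sub_le n 1)
    linarith
  have hpow : (0 : ℝ) < 2 ^ m := by positivity
  have f1 : ∑ t ∈ (Icc 1 (n / 2)).powersetCard m, ∏ i ∈ t, (2 / (i : ℝ)) ≤
      Real.exp (4 * (1 + Real.log n)) / 2 ^ m := by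
    rw [le_div_iff₀ hpow, mul_comm]
    exact e1.trans l1
  have f2 : ∑ t ∈ (range (n - 1)).powersetCard m, ∏ i ∈ t, (2 / ((n - 1 - i : ℕ) : ℝ)) ≤
      Real.exp (4 * (1 + Real.log n)) / 2 ^ m := by
    rw [le_div_iff₀ hpow, mul_comm]
    exact e2.trans l2
  have hT : (0 : ℝ) ≤ (Fintype.card (Order n) : ℝ) := by positivity
  have hn0 : (0 : ℝ) ≤ (n : ℝ) := by positivity
  calc ((univ.filter fun σ : Order n => 2 * m ≤ maxPath (output σ)).card : ℝ)
      ≤ (L.card : ℝ) + (R.card : ℝ) := by
        exact_mod_cast (card_le_card hsub).trans (card_union_le _ _)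
    _ ≤ (Fintype.card (Order n) : ℝ) * (n * (Real.exp (4 * (1 + Real.log n)) / 2 ^ m)) +
        (Fintype.card (Order n) : ℝ) * (n * (Real.exp (4 * (1 + Real.log n)) / 2 ^ m)) := by
        apply add_le_add
        · exact h1.trans (mul_le_mul_of_nonneg_left (mul_le_mul_of_nonneg_left f1 hn0) hT)
        · exact h2.trans (mul_le_mul_of_nonneg_left (mul_le_mul_of_nonneg_left f2 hn0) hT)
    _ = _ := by ring

open Classical in
lemma card_short (K : ℕ) (hn : 3 ≤ n) :
    ((univ.filter fun σ : Order n => maxPath (output σ) < K).card : ℝ) ≤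
      (Fintype.card (Order n) : ℝ) *
        (6 / n * Real.exp ((1 + Real.log n) / 2) * 4 ^ K) := by
  have hv0 : 0 < n / 2 := by omega
  have hsub : (univ.filter fun σ : Order n => maxPath (output σ) < K) ⊆
      (range K).biUnion fun m => univ.filter fun σ : Order n =>
        ∃ p : Fin (m + 2) → Fin n, StrictMono p ∧
      (p 0).val = 0 ∧ (p (Fin.last (m + 1))).val = n / 2 ∧ ∀ i : Fin (m + 1), ∃ e ∈ output σ,
      e.1 = (p i.castSucc, p i.succ) := by
    intro σ hσ
    simp only [mem_filter, mem_univ, true_and] at hσ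
    obtain ⟨k, p, hp0, hpl, hp⟩ := exists_path σ ⟨n / 2, by omega⟩
    have hk : k ≤ maxPath (output σ) := le_maxPath ⟨p, hp⟩
    rcases k with _ | m
    · exfalso
      have h1 : (p 0).val = n / 2 := by
        have := congrArg Fin.val hpl
        simpa using this
      omega
    · rw [mem_biUnion]
      refine ⟨m, mem_range.2 (by omega), ?_⟩
      simp only [mem_filter, mem_univ, true_and]
      exact ⟨p, strictMono_of_path hp, hp0, by rw [hpl], hp⟩
  have hT : (0 : ℝ) ≤ (Fintype.card (Order n) : ℝ) := by positivity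
  have hnpos : (0 : ℝ) < (n : ℝ) := by exact_mod_cast (by omega : 0 < n)
  have hvn : (2 : ℝ) / ((n / 2 : ℕ) : ℝ) ≤ 6 / n := by
    have h1 : (0 : ℝ) < ((n / 2 : ℕ) : ℝ) := by exact_mod_cast hv0
    rw [div_le_div_iff₀ h1 hnpos]
    have h2 : n ≤ 3 * (n / 2) := by omega
    have h3 : (n : ℝ) ≤ 3 * ((n / 2 : ℕ) : ℝ) := by exact_mod_cast h2
    linarith
  have key : ∀ m, ((univ.filter fun σ : Order n =>
        ∃ p : Fin (m + 2) → Fin n, StrictMono p ∧
      (p 0).val = 0 ∧ (p (Fin.last (m + 1))).val = n / 2 ∧ ∀ i : Fin (m + 1), ∃ e ∈ output σ,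
      e.1 = (p i.castSucc, p i.succ)).card : ℝ) ≤ (Fintype.card (Order n) : ℝ) *
        (6 / n * Real.exp ((1 + Real.log n) / 2) * 4 ^ m) := by
    intro m
    refine (prob_between (n := n) (m := m) (v := n / 2) (by omega)).trans ?_
    apply mul_le_mul_of_nonneg_left _ hT
    rw [mul_assoc]
    refine mul_le_mul hvn ?_ (sum_nonneg fun t _ => prod_nonneg fun i _ => by positivity)
      (by positivity)
    have e1 := esymm_bound (Ico 1 (n / 2)) (fun i => 2 / (i : ℝ)) (fun i _ => by positivity) (1 / 4)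
      (by norm_num) m
    have l1 : Real.exp (1 / 4 * ∑ i ∈ Ico 1 (n / 2), (2 / (i : ℝ))) ≤
        Real.exp ((1 + Real.log n) / 2) := by
      apply Real.exp_le_exp.2
      have := sum_Ico_inv (n / 2)
      have h3 := log_mono_nat (Nat.div_le_self n 2)
      linarith
    have e2 := e1.trans l1
    have h4 : (0 : ℝ) < 4 ^ m := by positivity
    calc ∑ t ∈ (Ico 1 (n / 2)).powersetCard m, ∏ i ∈ t, (2 / (i : ℝ))
        = ((1 / 4 : ℝ) ^ m * ∑ t ∈ (Ico 1 (n / 2)).powersetCard m, ∏ i ∈ t, (2 / (i : ℝ))) *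
          4 ^ m := by
          rw [one_div, inv_pow]
          field_simp
      _ ≤ Real.exp ((1 + Real.log n) / 2) * 4 ^ m :=
          mul_le_mul_of_nonneg_right e2 h4.le
  calc ((univ.filter fun σ : Order n => maxPath (output σ) < K).card : ℝ)
      ≤ ∑ m ∈ range K, ((univ.filter fun σ : Order n =>
        ∃ p : Fin (m + 2) → Fin n, StrictMono p ∧
      (p 0).val = 0 ∧ (p (Fin.last (m + 1))).val = n / 2 ∧ ∀ i : Fin (m + 1), ∃ e ∈ output σ,
      e.1 = (p i.castSucc, p i.succ)).card : ℝ) := by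
        exact_mod_cast (card_le_card hsub).trans card_biUnion_le
    _ ≤ ∑ m ∈ range K, (Fintype.card (Order n) : ℝ) *
        (6 / n * Real.exp ((1 + Real.log n) / 2) * 4 ^ m) := sum_le_sum fun m _ => key m
    _ = (Fintype.card (Order n) : ℝ) *
        (6 / n * Real.exp ((1 + Real.log n) / 2) * ∑ m ∈ range K, (4 : ℝ) ^ m) := by
        rw [mul_sum, mul_sum]
    _ ≤ _ := by
        apply mul_le_mul_of_nonneg_left _ hT
        apply mul_le_mul_of_nonneg_left _ (by positivity)
        have : ∀ K : ℕ, ∑ m ∈ range K, (4 : ℝ) ^ m ≤ 4 ^ K := by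
          intro K
          induction K with
          | zero => simp
          | succ K ih =>
            rw [sum_range_succ, pow_succ]
            have : (0 : ℝ) ≤ 4 ^ K := by positivity
            linarith
        exact this K

lemma card_order_pos : (0 : ℝ) < (Fintype.card (Order n) : ℝ) := by
  have : 0 < Fintype.card (Order n) := Fintype.card_pos_iff.2 ⟨(Fintype.equivFin _).symm⟩
  exact_mod_cast this

lemma expected_upper (m : ℕ) (hn : 3 ≤ n) :
    expectedLength n ≤ 2 * m + n * (2 * n * Real.exp (4 * (1 + Real.log n)) / 2 ^ m) := by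
  classical
  unfold expectedLength
  rw [div_le_iff₀ card_order_pos]
  have h1 : ∀ σ : Order n, (maxPath (output σ) : ℝ) ≤
      2 * m + (if 2 * m ≤ maxPath (output σ) then (n : ℝ) else 0) := by
    intro σ
    split_ifs with h
    · have := maxPath_le (output σ)
      have h2 : (maxPath (output σ) : ℝ) ≤ n := by exact_mod_cast this
      have h3 : (0 : ℝ) ≤ 2 * m := by positivity
      linarith
    · have h2 : (maxPath (output σ) : ℝ) ≤ 2 * m := by exact_mod_cast (not_le.1 h).le
      linarith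
  calc ∑ σ : Order n, (maxPath (output σ) : ℝ)
      ≤ ∑ σ : Order n, (2 * m + (if 2 * m ≤ maxPath (output σ) then (n : ℝ) else 0)) :=
        sum_le_sum fun σ _ => h1 σ
    _ = (Fintype.card (Order n) : ℝ) * (2 * m) +
        ((univ.filter fun σ : Order n => 2 * m ≤ maxPath (output σ)).card : ℝ) * n := by
        rw [sum_add_distrib, sum_const, card_univ, nsmul_eq_mul, ← sum_filter, sum_const,
          nsmul_eq_mul]
    _ ≤ (Fintype.card (Order n) : ℝ) * (2 * m) +
        ((Fintype.card (Order n) : ℝ) * (2 * n * Real.exp (4 * (1 + Real.log n)) / 2 ^ m)) * n := by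
        have := mul_le_mul_of_nonneg_right (card_long m hn) (Nat.cast_nonneg (α := ℝ) n)
        linarith
    _ = _ := by ring

lemma expected_lower (K : ℕ) (hn : 3 ≤ n)
    (hK : 6 / (n : ℝ) * Real.exp ((1 + Real.log n) / 2) * 4 ^ K ≤ 1 / 2) :
    (K : ℝ) / 2 ≤ expectedLength n := by
  classical
  unfold expectedLength
  rw [le_div_iff₀ card_order_pos]
  have hT := card_order_pos (n := n)
  have h1 : ∀ σ : Order n, (K : ℝ) - (if maxPath (output σ) < K then (K : ℝ) else 0) ≤
      maxPath (output σ) := by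
    intro σ
    split_ifs with h
    · have : (0 : ℝ) ≤ maxPath (output σ) := by positivity
      linarith
    · have h2 : (K : ℝ) ≤ maxPath (output σ) := by exact_mod_cast not_lt.1 h
      linarith
  have h2 := card_short K hn
  have h3 : ((univ.filter fun σ : Order n => maxPath (output σ) < K).card : ℝ) ≤
      (Fintype.card (Order n) : ℝ) * (1 / 2) :=
    h2.trans (mul_le_mul_of_nonneg_left hK hT.le)
  calc (K : ℝ) / 2 * (Fintype.card (Order n) : ℝ)
      ≤ (Fintype.card (Order n) : ℝ) * K -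
        ((univ.filter fun σ : Order n => maxPath (output σ) < K).card : ℝ) * K := by
        have := mul_le_mul_of_nonneg_right h3 (Nat.cast_nonneg (α := ℝ) K)
        linarith
    _ = ∑ σ : Order n, ((K : ℝ) - (if maxPath (output σ) < K then (K : ℝ) else 0)) := by
        rw [sum_sub_distrib, sum_const, card_univ, nsmul_eq_mul, ← sum_filter, sum_const,
          nsmul_eq_mul]
    _ ≤ _ := sum_le_sum fun σ _ => h1 σ

theorem main : ∃ c C : ℝ, 0 < c ∧ ∀ᶠ n : ℕ in atTop,
    c * Real.log n ≤ expectedLength n ∧ expectedLength n ≤ C * Real.log n := by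
  refine ⟨1 / 32, 43, by norm_num, ?_⟩
  have hlog : Tendsto (fun n : ℕ => Real.log n) atTop atTop :=
    Real.tendsto_log_atTop.comp tendsto_natCast_atTop_atTop
  filter_upwards [hlog.eventually_ge_atTop 32, eventually_ge_atTop 3] with n hl hn
  have hnpos : (0 : ℝ) < (n : ℝ) := by exact_mod_cast (by omega : 0 < n)
  set l := Real.log n with hldef
  have hexp : (n : ℝ) = Real.exp l := (Real.exp_log hnpos).symm
  constructor
  · set K := ⌊l / 8⌋₊ with hKdef
    have hK1 : (K : ℝ) ≤ l / 8 := Nat.floor_le (by positivity)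
    have hK2 : l / 8 - 1 < K := by
      have := Nat.lt_floor_add_one (l / 8)
      linarith
    have h4 : (4 : ℝ) ^ K ≤ Real.exp (l / 4) := by
      have h5 : (4 : ℝ) ≤ Real.exp 2 := by
        have h6 := Real.add_one_le_exp (1 : ℝ)
        have h7 : Real.exp 2 = Real.exp 1 * Real.exp 1 := by
          rw [← Real.exp_add]
          norm_num
        rw [h7]
        nlinarith
      calc (4 : ℝ) ^ K ≤ (Real.exp 2) ^ K := pow_le_pow_left₀ (by norm_num) h5 K
        _ = Real.exp (K * 2) := by rw [← Real.exp_nat_mul]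
        _ ≤ Real.exp (l / 4) := Real.exp_le_exp.2 (by linarith)
    have hmain : 6 / (n : ℝ) * Real.exp ((1 + l) / 2) * 4 ^ K ≤ 1 / 2 := by
      have h8 : 6 / (n : ℝ) * Real.exp ((1 + l) / 2) * 4 ^ K ≤
          6 * Real.exp (1 / 2 - l / 4) := by
        calc 6 / (n : ℝ) * Real.exp ((1 + l) / 2) * 4 ^ K
            ≤ 6 / (n : ℝ) * Real.exp ((1 + l) / 2) * Real.exp (l / 4) :=
              mul_le_mul_of_nonneg_left h4 (by positivity)
          _ = 6 * Real.exp (1 / 2 - l / 4) := by
              rw [hexp, div_eq_mul_inv, ← Real.exp_neg, mul_assoc, mul_assoc, ← Real.exp_add,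
                ← Real.exp_add]
              congr 2
              ring
      refine h8.trans ?_
      have h9 : Real.exp (1 / 2 - l / 4) ≤ Real.exp (-7) := Real.exp_le_exp.2 (by linarith)
      have h10 : Real.exp (-7) ≤ 1 / 12 := by
        rw [Real.exp_neg, inv_le_comm₀ (Real.exp_pos _) (by norm_num)]
        have h11 := Real.add_one_le_exp (7 : ℝ)
        have h12 : Real.exp 7 = Real.exp 3.5 * Real.exp 3.5 := by
          rw [← Real.exp_add]
          norm_num
        have h13 := Real.add_one_le_exp (3.5 : ℝ)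
        rw [h12]
        nlinarith
      linarith
    have := expected_lower K hn hmain
    linarith
  · set m := ⌈20 * l⌉₊ with hmdef
    have hm1 : 20 * l ≤ m := Nat.le_ceil _
    have hm2 : (m : ℝ) < 20 * l + 1 := Nat.ceil_lt_add_one (by positivity)
    have h1 := expected_upper m hn
    have h2 : Real.exp (12 * l) ≤ 2 ^ m := by
      have h3 : Real.exp (0.6 : ℝ) ≤ 2 := by
        have h31 : (0.6 : ℝ) ≤ Real.log 2 := by
          have := Real.log_two_gt_d9
          linarith
        calc Real.exp (0.6 : ℝ) ≤ Real.exp (Real.log 2) := Real.exp_le_exp.2 h31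
          _ = 2 := Real.exp_log (by norm_num)
      calc Real.exp (12 * l) ≤ Real.exp (m * 0.6) := Real.exp_le_exp.2 (by linarith)
        _ = (Real.exp 0.6) ^ m := by rw [Real.exp_nat_mul]
        _ ≤ 2 ^ m := pow_le_pow_left₀ (Real.exp_pos _).le h3 m
    have h4 : (n : ℝ) * (2 * n * Real.exp (4 * (1 + l)) / 2 ^ m) ≤ 1 := by
      have h5 : (n : ℝ) * (2 * n * Real.exp (4 * (1 + l)) / 2 ^ m) ≤
          (n : ℝ) * (2 * n * Real.exp (4 * (1 + l)) / Real.exp (12 * l)) := by
        apply mul_le_mul_of_nonneg_left _ hnpos.le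
        apply div_le_div_of_nonneg_left (by positivity) (Real.exp_pos _) h2
      refine h5.trans ?_
      have h6 : (n : ℝ) * (2 * n * Real.exp (4 * (1 + l)) / Real.exp (12 * l)) =
          2 * Real.exp (4 - 6 * l) := by
        rw [hexp, div_eq_mul_inv, ← Real.exp_neg]
        have : Real.exp l * (2 * Real.exp l * Real.exp (4 * (1 + l)) * Real.exp (-(12 * l))) =
            2 * (Real.exp l * Real.exp l * Real.exp (4 * (1 + l)) * Real.exp (-(12 * l))) := by
          ring
        rw [this, ← Real.exp_add, ← Real.exp_add, ← Real.exp_add]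
        congr 2
        ring
      rw [h6]
      have h7 : Real.exp (4 - 6 * l) ≤ Real.exp (-1) := Real.exp_le_exp.2 (by linarith)
      have h8 : Real.exp (-1) ≤ 1 / 2 := by
        rw [Real.exp_neg, inv_le_comm₀ (Real.exp_pos _) (by norm_num)]
        have := Real.add_one_le_exp (1 : ℝ)
        linarith
      linarith
    linarith

end Pool.Agent.X238.Erp
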