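import Pool.Agent.X238.Erp.Defs

/-!
# The (1,1) random edge-removal process: structure of the output
-/

namespace Pool.Agent.X238.Erp

open Finset

variable {n : ℕ}

lemma step_subset (G : Finset (Edge n)) (e : Edge n) : step G e ⊆ G := by
  unfold step
  split_ifs
  · exact erase_subset _ _
  · exact subset_rfl

lemma mem_step_of_ne {G : Finset (Edge n)} {e e' : Edge n} (h : e' ∈ G) (hne : e' ≠ e) :
    e' ∈ step G e := by
  unfold step
  split_ifs
  · exact mem_erase.2 ⟨hne, h⟩
  · exact h

/-- At most one initial and at most one terminal vertex. -/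
def Inv (G : Finset (Edge n)) : Prop := (initial G).card ≤ 1 ∧ (terminal G).card ≤ 1

lemma inv_step {G : Finset (Edge n)} (h : Inv G) (e : Edge n) : Inv (step G e) := by
  unfold step
  split_ifs with h1
  · exact h1
  · exact h

lemma inv_univ : Inv (univ : Finset (Edge n)) := by
  constructor
  · rw [card_le_one]
    intro a ha b hb
    simp only [initial, mem_filter, mem_univ, true_and, forall_true_left] at ha hb
    by_contra hab
    rcases lt_or_gt_of_ne hab with h | h
    · exact hb ⟨(a, b), h⟩ rfl
    · exact ha ⟨(b, a), h⟩ rfl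
  · rw [card_le_one]
    intro a ha b hb
    simp only [terminal, mem_filter, mem_univ, true_and, forall_true_left] at ha hb
    by_contra hab
    rcases lt_or_gt_of_ne hab with h | h
    · exact ha ⟨(a, b), h⟩ rfl
    · exact hb ⟨(b, a), h⟩ rfl

lemma inv_state (σ : Order n) (t : ℕ) : Inv (state σ t) := by
  induction t with
  | zero => exact inv_univ
  | succ t ih =>
    rw [state]
    split_ifs with h
    · exact inv_step ih _
    · exact ih

lemma state_succ_subset (σ : Order n) (t : ℕ) : state σ (t + 1) ⊆ state σ t := by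
  rw [state]
  split_ifs with h
  · exact step_subset _ _
  · exact subset_rfl

lemma state_anti (σ : Order n) : Antitone (state σ) :=
  antitone_nat_of_succ_le (state_succ_subset σ)

lemma mem_state (σ : Order n) (e : Edge n) (t : ℕ) (ht : t ≤ (σ.symm e).val) :
    e ∈ state σ t := by
  induction t with
  | zero => exact mem_univ _
  | succ t ih =>
    rw [state]
    have h : t < Fintype.card (Edge n) := lt_of_lt_of_le (Nat.lt_of_succ_le ht) (σ.symm e).2.le
    rw [dif_pos h]
    apply mem_step_of_ne (ih (by omega))
    rintro rfl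
    simp at ht

/-- An edge of the output was examined as the last one with its target, or as the last one with
its source. -/
lemma last_of_mem (σ : Order n) (e : Edge n) (he : e ∈ output σ) :
    (∀ e' : Edge n, e'.1.2 = e.1.2 → σ.symm e' ≤ σ.symm e) ∨
    (∀ e' : Edge n, e'.1.1 = e.1.1 → σ.symm e' ≤ σ.symm e) := by
  by_contra hcon
  push Not at hcon
  obtain ⟨⟨f, hf, hf'⟩, ⟨g, hg, hg'⟩⟩ := hcon
  set t := (σ.symm e).val with ht
  have hlt : t < Fintype.card (Edge n) := (σ.symm e).2
  have h1 : e ∈ state σ (t + 1) := state_anti σ (Nat.succ_le_of_lt hlt) he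
  rw [state, dif_pos hlt] at h1
  have h2 : σ ⟨t, hlt⟩ = e := by simp [t]
  rw [h2] at h1
  have hfG : f ∈ (state σ t).erase e := by
    refine mem_erase.2 ⟨?_, mem_state σ f t (le_of_lt hf')⟩
    rintro rfl
    exact lt_irrefl _ hf'
  have hgG : g ∈ (state σ t).erase e := by
    refine mem_erase.2 ⟨?_, mem_state σ g t (le_of_lt hg')⟩
    rintro rfl
    exact lt_irrefl _ hg'
  have hi : initial ((state σ t).erase e) ⊆ initial (state σ t) := by
    intro v hv
    simp only [initial, mem_filter, mem_univ, true_and] at hv ⊢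
    intro x hx hxv
    by_cases hxe : x = e
    · subst hxe
      exact hv f hfG (hf.trans hxv)
    · exact hv x (mem_erase.2 ⟨hxe, hx⟩) hxv
  have hterm : terminal ((state σ t).erase e) ⊆ terminal (state σ t) := by
    intro v hv
    simp only [terminal, mem_filter, mem_univ, true_and] at hv ⊢
    intro x hx hxv
    by_cases hxe : x = e
    · subst hxe
      exact hv g hgG (hg.trans hxv)
    · exact hv x (mem_erase.2 ⟨hxe, hx⟩) hxv
  have hinv := inv_state σ t
  have h3 : step (state σ t) e = (state σ t).erase e := by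
    unfold step
    rw [if_pos ⟨(card_le_card hi).trans hinv.1, (card_le_card hterm).trans hinv.2⟩]
  rw [h3] at h1
  exact (mem_erase.1 h1).1 rfl

/-- Every vertex different from `0` is the target of an edge of the output. -/
lemma exists_in_edge (σ : Order n) (v : Fin n) (hv : 0 < v.val) :
    ∃ e ∈ output σ, e.1.2 = v := by
  by_contra hcon
  push Not at hcon
  have h1 := (inv_state σ (Fintype.card (Edge n))).1
  rw [card_le_one] at h1
  have h2 := h1 v (by
    simp only [initial, mem_filter, mem_univ, true_and]
    exact hcon) ⟨0, lt_of_le_of_lt (Nat.zero_le _) v.2⟩ (by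
    simp only [initial, mem_filter, mem_univ, true_and]
    intro e he h
    have := e.2
    rw [h] at this
    exact absurd this (by simp [Fin.lt_def]))
  rw [h2] at hv
  simp at hv

/-- For every vertex `v` there is a path from `0` to `v` in the output. -/
lemma exists_path (σ : Order n) (v : Fin n) :
    ∃ (k : ℕ) (p : Fin (k + 1) → Fin n), (p 0).val = 0 ∧ p (Fin.last k) = v ∧
      ∀ i : Fin k, ∃ e ∈ output σ, e.1 = (p i.castSucc, p i.succ) := by
  obtain ⟨v, hv⟩ := v
  induction v using Nat.strong_induction_on with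
  | _ v ih =>
    rcases Nat.eq_zero_or_pos v with h | h
    · subst h
      exact ⟨0, fun _ => ⟨0, hv⟩, rfl, rfl, fun i => i.elim0⟩
    · obtain ⟨e, he, hev⟩ := exists_in_edge σ ⟨v, hv⟩ h
      have hlt := e.2
      rw [hev] at hlt
      obtain ⟨k, p, hp0, hpl, hp⟩ := ih e.1.1.val hlt e.1.1.2
      refine ⟨k + 1, Fin.snoc (α := fun _ => Fin n) p ⟨v, hv⟩, ?_, ?_, ?_⟩
      · have : (0 : Fin (k + 2)) = (0 : Fin (k + 1)).castSucc := rfl
        rw [this, Fin.snoc_castSucc]
        exact hp0
      · simp
      · intro i
        refine Fin.lastCases ?_ (fun j => ?_) i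
        · refine ⟨e, he, ?_⟩
          rw [Fin.snoc_castSucc, hpl, Fin.succ_last, Fin.snoc_last]
          exact Prod.ext rfl hev
        · obtain ⟨x, hx, hx'⟩ := hp j
          refine ⟨x, hx, ?_⟩
          rw [Fin.snoc_castSucc, Fin.succ_castSucc, Fin.snoc_castSucc]
          exact hx'

/-- The vertices of a path increase. -/
lemma strictMono_of_path {G : Finset (Edge n)} {m : ℕ} {p : Fin (m + 1) → Fin n}
    (hp : ∀ i : Fin m, ∃ e ∈ G, e.1 = (p i.castSucc, p i.succ)) : StrictMono p := by
  rw [Fin.strictMono_iff_lt_succ]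
  intro i
  obtain ⟨e, _, he⟩ := hp i
  have := e.2
  rw [he] at this
  exact this

lemma lt_of_hasPath {G : Finset (Edge n)} {m : ℕ} (h : HasPath G m) : m < n := by
  obtain ⟨p, hp⟩ := h
  have h1 := (strictMono_of_path hp).injective
  have h2 := Fintype.card_le_of_injective _ h1
  simpa using h2

lemma bddAbove_path (G : Finset (Edge n)) : BddAbove {m | HasPath G m} :=
  ⟨n, fun _ hm => (lt_of_hasPath hm).le⟩

lemma le_maxPath {G : Finset (Edge n)} {m : ℕ} (h : HasPath G m) : m ≤ maxPath G :=
  le_csSup (bddAbove_path G) h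

lemma maxPath_le (G : Finset (Edge n)) : maxPath G ≤ n := by
  unfold maxPath
  rcases Set.eq_empty_or_nonempty {m | HasPath G m} with h | h
  · rw [h]
    simp
  · exact csSup_le h fun _ hm => (lt_of_hasPath hm).le

lemma hasPath_maxPath [NeZero n] (G : Finset (Edge n)) : HasPath G (maxPath G) :=
  Nat.sSup_mem (s := {m | HasPath G m}) ⟨0, fun _ => 0, fun i => i.elim0⟩ (bddAbove_path G)

end Pool.Agent.X238.Erp
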