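import Pool.Agent.X238.Erp.Count

/-!
# The (1,1) random edge-removal process: first moments
-/

namespace Pool.Agent.X238.Erp

open Finset

/-- Elementary symmetric functions are bounded by the exponential function. -/
lemma esymm_bound (s : Finset ℕ) (f : ℕ → ℝ) (hf : ∀ i ∈ s, 0 ≤ f i) (x : ℝ) (hx : 0 < x)
    (m : ℕ) :
    x ^ m * ∑ t ∈ s.powersetCard m, ∏ i ∈ t, f i ≤ Real.exp (x * ∑ i ∈ s, f i) := by
  calc x ^ m * ∑ t ∈ s.powersetCard m, ∏ i ∈ t, f i
      = ∑ t ∈ s.powersetCard m, ∏ i ∈ t, (x * f i) := by
        rw [mul_sum]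
        apply sum_congr rfl
        intro t ht
        rw [prod_mul_distrib, prod_const, (mem_powersetCard.1 ht).2]
    _ ≤ ∑ t ∈ s.powerset, ∏ i ∈ t, (x * f i) := by
        apply sum_le_sum_of_subset_of_nonneg
        · intro t ht
          exact mem_powerset.2 (mem_powersetCard.1 ht).1
        · intro t ht _
          exact prod_nonneg fun i hi => mul_nonneg hx.le (hf i (mem_powerset.1 ht hi))
    _ = ∏ i ∈ s, (1 + x * f i) := by
        rw [prod_one_add]
    _ ≤ ∏ i ∈ s, Real.exp (x * f i) := by
        apply prod_le_prod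
        · intro i hi
          have := mul_nonneg hx.le (hf i hi)
          linarith
        · intro i _
          rw [add_comm]
          exact Real.add_one_le_exp _
    _ = Real.exp (x * ∑ i ∈ s, f i) := by
        rw [← Real.exp_sum, mul_sum]

variable {n : ℕ}

lemma eq_of_image_succ {m : ℕ} {p q : Fin (m + 1) → Fin n} (hp : StrictMono p)
    (hq : StrictMono q) (h0 : p 0 = q 0)
    (h : univ.image (fun i : Fin m => (p i.succ).val) = univ.image (fun i : Fin m => (q i.succ).val)) :
    p = q := by
  have h1 : StrictMono (fun i : Fin m => (p i.succ).val) := fun i j hij =>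
    hp (Fin.succ_lt_succ_iff.2 hij)
  have h2 : StrictMono (fun i : Fin m => (q i.succ).val) := fun i j hij =>
    hq (Fin.succ_lt_succ_iff.2 hij)
  have h3 : Set.range (fun i : Fin m => (p i.succ).val) = Set.range (fun i : Fin m => (q i.succ).val) := by
    have := congrArg (fun s : Finset ℕ => (s : Set ℕ)) h
    simpa using this
  have h4 := (StrictMono.range_inj h1 h2).1 h3
  funext j
  refine Fin.cases h0 (fun i => ?_) j
  exact Fin.ext (congrFun h4 i)

lemma eq_of_image_castSucc {m : ℕ} {p q : Fin (m + 1) → Fin n} (hp : StrictMono p)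
    (hq : StrictMono q) (h0 : p (Fin.last m) = q (Fin.last m))
    (h : univ.image (fun i : Fin m => (p i.castSucc).val) =
      univ.image (fun i : Fin m => (q i.castSucc).val)) :
    p = q := by
  have h1 : StrictMono (fun i : Fin m => (p i.castSucc).val) := fun i j hij =>
    hp (Fin.castSucc_lt_castSucc_iff.2 hij)
  have h2 : StrictMono (fun i : Fin m => (q i.castSucc).val) := fun i j hij =>
    hq (Fin.castSucc_lt_castSucc_iff.2 hij)
  have h3 : Set.range (fun i : Fin m => (p i.castSucc).val) =
      Set.range (fun i : Fin m => (q i.castSucc).val) := by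
    have := congrArg (fun s : Finset ℕ => (s : Set ℕ)) h
    simpa using this
  have h4 := (StrictMono.range_inj h1 h2).1 h3
  funext j
  refine Fin.lastCases h0 (fun i => ?_) j
  exact Fin.ext (congrFun h4 i)

open Classical in
/-- The sum of products over paths is at most the number of vertices times an elementary
symmetric function. -/
lemma sum_paths {m : ℕ} (P : Finset (Fin (m + 1) → Fin n)) (g : Fin m → Fin (m + 1))
    (hg : Function.Injective g) (z : Fin (m + 1)) (s : Finset ℕ) (f : ℕ → ℝ)
    (hf : ∀ i, 0 ≤ f i) (hP : ∀ p ∈ P, StrictMono p) (hs : ∀ p ∈ P, ∀ i, (p (g i)).val ∈ s)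
    (hinj : ∀ p ∈ P, ∀ q ∈ P, p z = q z →
      univ.image (fun i => (p (g i)).val) = univ.image (fun i => (q (g i)).val) → p = q) :
    ∑ p ∈ P, ∏ i : Fin m, f (p (g i)).val ≤ n * ∑ t ∈ s.powersetCard m, ∏ i ∈ t, f i := by
  let F : (Fin (m + 1) → Fin n) → Fin n × Finset ℕ := fun p =>
    (p z, univ.image (fun i => (p (g i)).val))
  have hinj1 : ∀ p ∈ P, Function.Injective (fun i => (p (g i)).val) := fun p hp i j hij =>
    hg ((hP p hp).injective (Fin.ext hij))
  have h1 : ∑ p ∈ P, ∏ i : Fin m, f (p (g i)).val =
      ∑ y ∈ P.image F, ∏ i ∈ y.2, f i := by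
    rw [sum_image]
    · apply sum_congr rfl
      intro p hp
      simp only [F]
      rw [prod_image]
      intro i _ j _ hij
      exact hinj1 p hp hij
    · intro p hp q hq hpq
      simp only [F, Prod.mk.injEq] at hpq
      exact hinj p hp q hq hpq.1 hpq.2
  rw [h1]
  have h2 : P.image F ⊆ (univ : Finset (Fin n)) ×ˢ s.powersetCard m := by
    intro y hy
    obtain ⟨p, hp, rfl⟩ := mem_image.1 hy
    simp only [F, mem_product, mem_univ, true_and, mem_powersetCard]
    constructor
    · intro b hb
      obtain ⟨i, _, rfl⟩ := mem_image.1 hb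
      exact hs p hp i
    · rw [card_image_of_injective _ (hinj1 p hp)]
      simp
  refine (sum_le_sum_of_subset_of_nonneg h2 ?_).trans ?_
  · intro y _ _
    exact prod_nonneg fun i _ => hf i
  · rw [sum_product]
    simp

open Classical in
/-- Paths in the left half. -/
lemma prob_left {m v : ℕ} (hv : 2 * v ≤ n) :
    ((univ.filter fun σ : Order n => ∃ p : Fin (m + 1) → Fin n, StrictMono p ∧
      (∀ j, (p j).val ≤ v) ∧ ∀ i : Fin m, ∃ e ∈ output σ,
      e.1 = (p i.castSucc, p i.succ)).card : ℝ) ≤
      (Fintype.card (Order n) : ℝ) *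
        (n * ∑ t ∈ (Icc 1 v).powersetCard m, ∏ i ∈ t, (2 / (i : ℝ))) := by
  let P : Finset (Fin (m + 1) → Fin n) := univ.filter fun p => StrictMono p ∧ ∀ j, (p j).val ≤ v
  have h1 : (univ.filter fun σ : Order n => ∃ p : Fin (m + 1) → Fin n, StrictMono p ∧
      (∀ j, (p j).val ≤ v) ∧ ∀ i : Fin m, ∃ e ∈ output σ,
      e.1 = (p i.castSucc, p i.succ)) ⊆ P.biUnion fun p => univ.filter fun σ : Order n =>
        ∀ i : Fin m, ∃ e ∈ output σ, e.1 = (p i.castSucc, p i.succ) := by
    intro σ hσ
    simp only [mem_filter, mem_univ, true_and] at hσ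
    obtain ⟨p, hp1, hp2, hp3⟩ := hσ
    exact mem_biUnion.2 ⟨p, by simp [P, hp1, hp2], by simpa using hp3⟩
  calc ((univ.filter fun σ : Order n => ∃ p : Fin (m + 1) → Fin n, StrictMono p ∧
      (∀ j, (p j).val ≤ v) ∧ ∀ i : Fin m, ∃ e ∈ output σ,
      e.1 = (p i.castSucc, p i.succ)).card : ℝ)
      ≤ ∑ p ∈ P, ((univ.filter fun σ : Order n =>
        ∀ i : Fin m, ∃ e ∈ output σ, e.1 = (p i.castSucc, p i.succ)).card : ℝ) := by
        exact_mod_cast (card_le_card h1).trans card_biUnion_le
    _ ≤ ∑ p ∈ P, (Fintype.card (Order n) : ℝ) * ∏ i : Fin m, (2 / ((p i.succ).val : ℝ)) := by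
        apply sum_le_sum
        intro p hp
        simp only [P, mem_filter, mem_univ, true_and] at hp
        exact count_left hv p hp.1 hp.2
    _ = (Fintype.card (Order n) : ℝ) * ∑ p ∈ P, ∏ i : Fin m, (2 / ((p i.succ).val : ℝ)) := by
        rw [mul_sum]
    _ ≤ _ := by
        apply mul_le_mul_of_nonneg_left _ (by positivity)
        refine sum_paths P Fin.succ (Fin.succ_injective _) 0 (Icc 1 v) (fun i => 2 / (i : ℝ))
          (fun i => by positivity) ?_ ?_ ?_
        · intro p hp
          simp only [P, mem_filter, mem_univ, true_and] at hp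
          exact hp.1
        · intro p hp i
          simp only [P, mem_filter, mem_univ, true_and] at hp
          rw [mem_Icc]
          refine ⟨?_, hp.2 _⟩
          have := hp.1 (Fin.succ_pos i)
          exact lt_of_le_of_lt (Nat.zero_le _) this
        · intro p hp q hq h0 h
          simp only [P, mem_filter, mem_univ, true_and] at hp hq
          exact eq_of_image_succ hp.1 hq.1 h0 h

open Classical in
/-- Paths in the right half. -/
lemma prob_right {m u : ℕ} (hu : n ≤ 2 * u + 2) :
    ((univ.filter fun σ : Order n => ∃ p : Fin (m + 1) → Fin n, StrictMono p ∧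
      (∀ j, u ≤ (p j).val) ∧ ∀ i : Fin m, ∃ e ∈ output σ,
      e.1 = (p i.castSucc, p i.succ)).card : ℝ) ≤
      (Fintype.card (Order n) : ℝ) *
        (n * ∑ t ∈ (range (n - 1)).powersetCard m, ∏ i ∈ t, (2 / ((n - 1 - i : ℕ) : ℝ))) := by
  let P : Finset (Fin (m + 1) → Fin n) := univ.filter fun p => StrictMono p ∧ ∀ j, u ≤ (p j).val
  have h1 : (univ.filter fun σ : Order n => ∃ p : Fin (m + 1) → Fin n, StrictMono p ∧
      (∀ j, u ≤ (p j).val) ∧ ∀ i : Fin m, ∃ e ∈ output σ,
      e.1 = (p i.castSucc, p i.succ)) ⊆ P.biUnion fun p => univ.filter fun σ : Order n =>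
        ∀ i : Fin m, ∃ e ∈ output σ, e.1 = (p i.castSucc, p i.succ) := by
    intro σ hσ
    simp only [mem_filter, mem_univ, true_and] at hσ
    obtain ⟨p, hp1, hp2, hp3⟩ := hσ
    exact mem_biUnion.2 ⟨p, by simp [P, hp1, hp2], by simpa using hp3⟩
  calc ((univ.filter fun σ : Order n => ∃ p : Fin (m + 1) → Fin n, StrictMono p ∧
      (∀ j, u ≤ (p j).val) ∧ ∀ i : Fin m, ∃ e ∈ output σ,
      e.1 = (p i.castSucc, p i.succ)).card : ℝ)
      ≤ ∑ p ∈ P, ((univ.filter fun σ : Order n =>
        ∀ i : Fin m, ∃ e ∈ output σ, e.1 = (p i.castSucc, p i.succ)).card : ℝ) := by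
        exact_mod_cast (card_le_card h1).trans card_biUnion_le
    _ ≤ ∑ p ∈ P, (Fintype.card (Order n) : ℝ) *
          ∏ i : Fin m, (2 / ((n - 1 - (p i.castSucc).val : ℕ) : ℝ)) := by
        apply sum_le_sum
        intro p hp
        simp only [P, mem_filter, mem_univ, true_and] at hp
        exact count_right hu p hp.1 hp.2
    _ = (Fintype.card (Order n) : ℝ) *
          ∑ p ∈ P, ∏ i : Fin m, (2 / ((n - 1 - (p i.castSucc).val : ℕ) : ℝ)) := by
        rw [mul_sum]
    _ ≤ _ := by
        apply mul_le_mul_of_nonneg_left _ (by positivity)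
        refine sum_paths P Fin.castSucc (Fin.castSucc_injective _) (Fin.last m) (range (n - 1))
          (fun i => 2 / ((n - 1 - i : ℕ) : ℝ)) (fun i => by positivity) ?_ ?_ ?_
        · intro p hp
          simp only [P, mem_filter, mem_univ, true_and] at hp
          exact hp.1
        · intro p hp i
          simp only [P, mem_filter, mem_univ, true_and] at hp
          rw [mem_range]
          have h3 : (p i.castSucc).val < (p i.succ).val := hp.1 (Fin.castSucc_lt_succ)
          have h4 := (p i.succ).2
          omega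
        · intro p hp q hq h0 h
          simp only [P, mem_filter, mem_univ, true_and] at hp hq
          exact eq_of_image_castSucc hp.1 hq.1 h0 h

open Classical in
/-- Paths with `m + 1` edges from `0` to `v` in the left half. -/
lemma prob_between {m v : ℕ} (hv : 2 * v ≤ n) :
    ((univ.filter fun σ : Order n => ∃ p : Fin (m + 2) → Fin n, StrictMono p ∧
      (p 0).val = 0 ∧ (p (Fin.last (m + 1))).val = v ∧ ∀ i : Fin (m + 1), ∃ e ∈ output σ,
      e.1 = (p i.castSucc, p i.succ)).card : ℝ) ≤
      (Fintype.card (Order n) : ℝ) *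
        (2 / (v : ℝ) * ∑ t ∈ (Ico 1 v).powersetCard m, ∏ i ∈ t, (2 / (i : ℝ))) := by
  let P : Finset (Fin (m + 2) → Fin n) := univ.filter fun p => StrictMono p ∧ (p 0).val = 0 ∧
    (p (Fin.last (m + 1))).val = v
  have h1 : (univ.filter fun σ : Order n => ∃ p : Fin (m + 2) → Fin n, StrictMono p ∧
      (p 0).val = 0 ∧ (p (Fin.last (m + 1))).val = v ∧ ∀ i : Fin (m + 1), ∃ e ∈ output σ,
      e.1 = (p i.castSucc, p i.succ)) ⊆ P.biUnion fun p => univ.filter fun σ : Order n =>
        ∀ i : Fin (m + 1), ∃ e ∈ output σ, e.1 = (p i.castSucc, p i.succ) := by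
    intro σ hσ
    simp only [mem_filter, mem_univ, true_and] at hσ
    obtain ⟨p, hp1, hp2, hp3, hp4⟩ := hσ
    exact mem_biUnion.2 ⟨p, by simp [P, hp1, hp2, hp3], by simpa using hp4⟩
  have hbd : ∀ p ∈ P, ∀ j, (p j).val ≤ v := by
    intro p hp j
    simp only [P, mem_filter, mem_univ, true_and] at hp
    rw [← hp.2.2]
    exact hp.1.monotone (Fin.le_last j)
  calc ((univ.filter fun σ : Order n => ∃ p : Fin (m + 2) → Fin n, StrictMono p ∧
      (p 0).val = 0 ∧ (p (Fin.last (m + 1))).val = v ∧ ∀ i : Fin (m + 1), ∃ e ∈ output σ,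
      e.1 = (p i.castSucc, p i.succ)).card : ℝ)
      ≤ ∑ p ∈ P, ((univ.filter fun σ : Order n =>
        ∀ i : Fin (m + 1), ∃ e ∈ output σ, e.1 = (p i.castSucc, p i.succ)).card : ℝ) := by
        exact_mod_cast (card_le_card h1).trans card_biUnion_le
    _ ≤ ∑ p ∈ P, (Fintype.card (Order n) : ℝ) *
          ∏ i : Fin (m + 1), (2 / ((p i.succ).val : ℝ)) := by
        apply sum_le_sum
        intro p hp
        have h2 := hbd p hp
        simp only [P, mem_filter, mem_univ, true_and] at hp
        exact count_left hv p hp.1 h2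
    _ = (Fintype.card (Order n) : ℝ) * (2 / (v : ℝ) *
          ∑ p ∈ P, ∏ i : Fin m, (2 / ((p i.castSucc.succ).val : ℝ))) := by
        rw [← mul_sum]
        congr 1
        rw [mul_sum]
        apply sum_congr rfl
        intro p hp
        simp only [P, mem_filter, mem_univ, true_and] at hp
        rw [Fin.prod_univ_castSucc, Fin.succ_last, hp.2.2, mul_comm]
    _ ≤ _ := by
        apply mul_le_mul_of_nonneg_left _ (by positivity)
        apply mul_le_mul_of_nonneg_left _ (by positivity)
        have hmono : ∀ p ∈ P, StrictMono (fun i : Fin m => (p i.castSucc.succ).val) := by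
          intro p hp i j hij
          simp only [P, mem_filter, mem_univ, true_and] at hp
          exact hp.1 (Fin.succ_lt_succ_iff.2 (Fin.castSucc_lt_castSucc_iff.2 hij))
        let F : (Fin (m + 2) → Fin n) → Finset ℕ := fun p =>
          univ.image (fun i : Fin m => (p i.castSucc.succ).val)
        have h3 : ∑ p ∈ P, ∏ i : Fin m, (2 / ((p i.castSucc.succ).val : ℝ)) =
            ∑ y ∈ P.image F, ∏ i ∈ y, (2 / (i : ℝ)) := by
          rw [sum_image]
          · apply sum_congr rfl
            intro p hp
            simp only [F]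
            rw [prod_image]
            intro i _ j _ hij
            exact (hmono p hp).injective hij
          · intro p hp q hq hpq
            have h4 : Set.range (fun i : Fin m => (p i.castSucc.succ).val) =
                Set.range (fun i : Fin m => (q i.castSucc.succ).val) := by
              have := congrArg (fun s : Finset ℕ => (s : Set ℕ)) hpq
              simpa [F] using this
            have h5 := (StrictMono.range_inj (hmono p hp) (hmono q hq)).1 h4
            simp only [P, coe_filter, mem_univ, true_and, Set.mem_ofPred_eq] at hp hq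
            funext j
            refine Fin.cases (Fin.ext (hp.2.1.trans hq.2.1.symm)) (fun i => ?_) j
            refine Fin.lastCases ?_ (fun k => Fin.ext (congrFun h5 k)) i
            rw [Fin.succ_last]
            exact Fin.ext (hp.2.2.trans hq.2.2.symm)
        rw [h3]
        apply sum_le_sum_of_subset_of_nonneg
        · intro y hy
          obtain ⟨p, hp, rfl⟩ := mem_image.1 hy
          simp only [F, mem_powersetCard]
          constructor
          · intro b hb
            obtain ⟨i, _, rfl⟩ := mem_image.1 hb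
            simp only [P, mem_filter, mem_univ, true_and] at hp
            rw [mem_Ico]
            constructor
            · have : p 0 < p i.castSucc.succ := hp.1 (Fin.succ_pos _)
              exact lt_of_le_of_lt (Nat.zero_le _) this
            · rw [← hp.2.2]
              apply hp.1
              rw [← Fin.succ_last]
              exact Fin.succ_lt_succ_iff.2 (Fin.castSucc_lt_last i)
          · rw [card_image_of_injective _ (hmono p hp).injective]
            simp
        · intro y _ _
          exact prod_nonneg fun i _ => by positivity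

end Pool.Agent.X238.Erp
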